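import Mathlib
import Pool.Agent.V11221.FouDefs
import Pool.Agent.V11221.FouA
import Pool.Agent.V11221.FouB
import Pool.Agent.V11221.FouC
import Pool.Agent.V11221.FouD
import Pool.Agent.V11221.FouE
import Pool.Agent.V11221.FouF
import Pool.Agent.V11221.FouG
import Pool.Agent.V11221.FouH
import Pool.Agent.V11221.FouI

/-!
# MP_0880e2_an: Fourier decomposition properties on the circle versus the line

For every complex Banach space `X` and all `p, q ∈ [1,∞]`, `X` has upper (lower)
`ℓ^q(L^p)`-decompositions on `𝕋` iff it has them on `ℝ`.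

Definitions (`Pool.Agent.V11221.FouDefs`): `lqNorm`, `trigPoly`, `projT`, `IsSc`, `projR`,
`IsIntPartZ`, `IsIntPartR` (countably many intervals), `IsIntPartR'` (intervals of positive
length), `UpperT`, `LowerT`, `UpperR`, `LowerR`.

`IsIntPartAll` below is the class of all partitions of `ℝ` into (possibly degenerate, possibly
uncountably many) intervals; for it the lower equivalence still holds, while the upper property on
`ℝ` fails for trivial reasons (partition into points) for every nonzero `X`.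
-/

open MeasureTheory Set Filter Topology
open scoped ENNReal FourierTransform SchwartzMap

namespace Pool.Agent.Results.MP_0880e2_an.CircleLineEquivalence

open Pool.Agent.V11221.Fou

/-- All partitions of `ℝ` into order-connected sets (one-point intervals allowed). -/
def IsIntPartAll (P : Set (Set ℝ)) : Prop :=
  Setoid.IsPartition P ∧ ∀ I ∈ P, I.OrdConnected

lemma countable_of_R' {P : Set (Set ℝ)} (hP : IsIntPartR' P) : P.Countable := by
  have hd : P.PairwiseDisjoint id := by
    intro I hI J hJ hIJ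
    show Disjoint I J
    rw [Set.disjoint_left]
    intro ξ h1 h2
    obtain ⟨K, _, huniq⟩ := hP.1.2 ξ
    exact hIJ ((huniq I ⟨hI, h1⟩).trans (huniq J ⟨hJ, h2⟩).symm)
  exact hd.countable_of_nonempty_interior (fun I hI => hP.2.2 I hI)

section
variable (X : Type*) [NormedAddCommGroup X] [NormedSpace ℂ X] [CompleteSpace X]

lemma upper_iff {part : Set (Set ℝ) → Prop} (h1 : ∀ P, IsIntPartZ P → part (til '' P))
    (h2 : ∀ P, part P → Setoid.IsPartition P ∧ (∀ I ∈ P, I.OrdConnected) ∧ P.Countable)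
    {p q : ℝ≥0∞} (hp : 1 ≤ p) (hq : 1 ≤ q) : UpperT X p q ↔ UpperR X part p q := by
  refine ⟨fun h => ?_, fun h => upperT_of_upperR X h1 hp hq h⟩
  rcases subsingleton_or_nontrivial X with hX | hX
  · refine ⟨1, one_pos, fun P _ f _ => ?_⟩
    have : f = 0 := Subsingleton.elim _ _
    rw [this]; simp
  · rcases hq.eq_or_lt with rfl | hq1
    · exact upperR_one X h2 hp
    · rcases hp.eq_or_lt with rfl | hp1
      · exact absurd h (upperT_one_false X hq1)
      · by_cases hpt : p = ∞
        · subst hpt; exact absurd h (upperT_top_false X hq1)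
        · exact upperR_of_upperT X h2 hp1 hpt hq h

lemma projR_singleton (f : ℝ → X) (ξ : ℝ) : projR {ξ} f = 0 := by
  ext t
  rw [projR_eq, integral_indicator (measurableSet_singleton ξ)]
  exact setIntegral_measure_zero _ (by simp)

lemma upperR_all_false [Nontrivial X] {p q : ℝ≥0∞} (hp : 1 ≤ p) (hq : 1 ≤ q) :
    ¬ UpperR X IsIntPartAll p q := by
  rintro ⟨U, hU, h⟩
  obtain ⟨x, hx⟩ := exists_unit_vec X
  obtain ⟨K, hK, hlow⟩ := norm_lower (X := X) p
  let P : Set (Set ℝ) := range fun ξ : ℝ => ({ξ} : Set ℝ)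
  have hP : IsIntPartAll P := by
    refine ⟨⟨?_, ?_⟩, ?_⟩
    · rintro ⟨ξ, hξ⟩
      exact (singleton_nonempty ξ).ne_empty hξ
    · intro ξ
      refine ⟨{ξ}, ⟨⟨ξ, rfl⟩, rfl⟩, ?_⟩
      rintro _ ⟨⟨η, rfl⟩, hη⟩
      rw [mem_singleton_iff.1 hη]
    · rintro _ ⟨ξ, rfl⟩
      exact ordConnected_singleton
  let c : ℤ →₀ X := Finsupp.single 0 x
  have h1 := h P hP (tra c) (tra_isSc c)
  have h2 : (lqNorm q fun I : P => eLpNorm (projR (I : Set ℝ) (tra c)) p volume) = 0 := by
    have h3 : (fun I : P => eLpNorm (projR (I : Set ℝ) (tra c)) p volume) =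
        fun I : P => 0 * (1 : ℝ≥0∞) := by
      ext ⟨_, ξ, rfl⟩
      rw [projR_singleton]; simp
    rw [h3, lqNorm_const_mul hq, zero_mul]
  rw [h2, mul_zero] at h1
  have h4 : eLpNorm (tra c) p volume = 0 := le_antisymm h1 zero_le
  have h5 := hlow (trigPoly c) (continuous_trigPoly c)
  have h6 : eLpNorm (trigPoly c) p volume ≤ 0 := by
    calc _ ≤ K * eLpNorm (tra c) p volume := h5
      _ = 0 := by rw [h4, mul_zero]
  have h7 : trigPoly c = fun _ => x := by
    ext t; rw [trigPoly_single]; simp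
  have hp0 : p ≠ 0 := (zero_lt_one.trans_le hp).ne'
  rw [h7, eLpNorm_const _ hp0 (by
    intro h0
    have := UnitAddCircle.measure_univ
    rw [h0] at this; simp at this), UnitAddCircle.measure_univ, ENNReal.one_rpow, mul_one] at h6
  have h8 : ‖x‖ₑ = 1 := by rw [← ofReal_norm, hx]; simp
  rw [h8] at h6
  exact absurd h6 (by simp)

end

/-- **Main theorem.** For every complex Banach space `X` and all `p, q ∈ [1,∞]`: upper (lower)
`ℓ^q(L^p)`-decompositions on `𝕋` are equivalent to upper (lower) `ℓ^q(L^p)`-decompositions on `ℝ`,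
both when interval partitions of `ℝ` consist of countably many intervals and when they consist of
intervals of positive length. If arbitrary families of one-point intervals are allowed, the lower
equivalence persists, and the upper property on `ℝ` fails for all `X ≠ 0`. -/
theorem result (X : Type*) [NormedAddCommGroup X] [NormedSpace ℂ X] [CompleteSpace X]
    (p q : ℝ≥0∞) (hp : 1 ≤ p) (hq : 1 ≤ q) :
    ((UpperT X p q ↔ UpperR X IsIntPartR p q) ∧ (LowerT X p q ↔ LowerR X IsIntPartR p q)) ∧
    ((UpperT X p q ↔ UpperR X IsIntPartR' p q) ∧ (LowerT X p q ↔ LowerR X IsIntPartR' p q)) ∧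
    ((LowerT X p q ↔ LowerR X IsIntPartAll p q) ∧
      (Nontrivial X → ¬ UpperR X IsIntPartAll p q)) := by
  refine ⟨⟨?_, ?_⟩, ⟨?_, ?_⟩, ⟨?_, ?_⟩⟩
  · exact upper_iff X (fun P hP => til_isIntPartR hP) (fun P hP => ⟨hP.1, hP.2.1, hP.2.2⟩) hp hq
  · exact ⟨lowerR_of_lowerT X (fun P hP => ⟨hP.1, hP.2.1⟩) hp hq,
      lowerT_of_lowerR X (fun P hP => til_isIntPartR hP) hp hq⟩
  · exact upper_iff X (fun P hP => til_isIntPartR' hP)
      (fun P hP => ⟨hP.1, hP.2.1, countable_of_R' hP⟩) hp hq
  · exact ⟨lowerR_of_lowerT X (fun P hP => ⟨hP.1, hP.2.1⟩) hp hq,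
      lowerT_of_lowerR X (fun P hP => til_isIntPartR' hP) hp hq⟩
  · exact ⟨lowerR_of_lowerT X (fun P hP => hP) hp hq,
      lowerT_of_lowerR X (fun P hP => ⟨(til_isIntPartR hP).1, (til_isIntPartR hP).2.1⟩) hp hq⟩
  · intro hX
    exact upperR_all_false X hp hq

end Pool.Agent.Results.MP_0880e2_an.CircleLineEquivalence
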